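import Pool.Agent.H31.FW.TargetsL
import Pool.Agent.H48.BG.L2
import Pool.Agent.H63.FW.L2
import Pool.Agent.H95.FW.LO

/-!
# The complete sum modulo a prime power (module LE)
-/

set_option autoImplicit false

open NumberField

namespace Pool.Agent.H39.FW.LE

open Pool.Agent.H31.FW
open Pool.Agent.H23.LB (Nf)
open Pool.Agent.H29.TC (LC MC AC)
open Pool.Agent.H23.BG (Ac)
open Pool.Agent.H48.BG (ex_val q_two)
open Pool.Agent.H63.FW (cs_norm_le Nf_le_of_le one_le_Nf Nf_pow card_quot)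
open Pool.Agent.H95.FW.LO (canc lift mk0)

/-- the constants -/
theorem cst {Q : ℝ} (hQ : 1 ≤ Q) {n t : ℕ} (ht : 1 ≤ t) (hQt : Q ^ t ≤ 2 ^ n) :
    4 * Q ^ (2 * t + 1) ≤ (4 ^ (n + 1) : ℝ) ^ 2 := by
  have hQ0 : (0 : ℝ) ≤ Q := by linarith
  have h1 : Q ≤ 2 ^ n := by
    calc Q = Q ^ 1 := (pow_one Q).symm
      _ ≤ Q ^ t := pow_le_pow_right₀ hQ ht
      _ ≤ _ := hQt
  have e4 : (4 : ℝ) ^ (n + 1) = 4 * (2 ^ n) ^ 2 := by
    rw [pow_succ, ← pow_mul, mul_comm n 2, pow_mul]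
    norm_num
    ring
  have hz : (1 : ℝ) ≤ 2 ^ n := one_le_pow₀ (by norm_num)
  calc 4 * Q ^ (2 * t + 1) = 4 * ((Q ^ t) ^ 2 * Q) := by
        rw [pow_succ, ← pow_mul, mul_comm t 2]
    _ ≤ 4 * ((2 ^ n) ^ 2 * (2 ^ n)) := by gcongr
    _ = 4 * (2 ^ n) ^ 3 := by ring
    _ ≤ 16 * (2 ^ n) ^ 4 := by
        have h3 : ((2 : ℝ) ^ n) ^ 3 ≤ (2 ^ n) ^ 4 := pow_le_pow_right₀ hz (by norm_num)
        have h0 : (0 : ℝ) ≤ (2 ^ n) ^ 4 := by positivity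
        linarith
    _ = _ := by rw [e4]; ring

/-- an element of `P ^ j` is in `P ^ k` for the exact exponent `k` at least `j` -/
theorem le_of_mem {K : Type} [Field K] [NumberField K] {P : Ideal (𝓞 K)} {x : 𝓞 K} {j k : ℕ}
    (hj : x ∈ P ^ j) (hk : x ∉ P ^ (k + 1)) : j ≤ k := by
  by_contra h
  exact hk (Ideal.pow_le_pow_right (by omega) hj)

theorem pf_LE (hLS : Q_LS) (hCN : Q_CN) : Q_LE := by
  intro n K _ _ hn P hP hP0 s e h2s hse _ η θ hη hθ h hh hcase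
  have hs1 : 1 ≤ s := by
    by_contra hs
    have : s = 0 := by omega
    rw [this, pow_zero, Ideal.one_eq_top] at h2s
    exact h2s Submodule.mem_top
  have hQ : (1 : ℝ) ≤ Nf K P := one_le_Nf hP0
  have hQ0 : (0 : ℝ) ≤ Nf K P := zero_le_one.trans hQ
  have hPe : P ^ e ≠ ⊥ := pow_ne_zero e hP0
  have hJ0 : Ideal.span {h} ⊔ P ^ e ≠ ⊥ := fun h1 => hPe (le_bot_iff.1 (h1 ▸ le_sup_right))
  have hNJ : ∀ a : ℕ, a ≤ e → h ∈ P ^ a → Nf K P ^ a ≤ Nf K (Ideal.span {h} ⊔ P ^ e) := by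
    intro a ha hha
    rw [← Nf_pow]
    exact Nf_le_of_le hJ0 (sup_le ((Ideal.span_singleton_le_iff_mem _).2 hha)
      (Ideal.pow_le_pow_right ha))
  obtain ⟨t, ht1, ht2⟩ := ex_val hP (two_ne_zero : (2 : 𝓞 K) ≠ 0)
  have hA : (t = 0 ∧ (2 : 𝓞 K) ∉ P ∧ Ac K n P = 4) ∨
      (1 ≤ t ∧ (2 : 𝓞 K) ∈ P ∧ Nf K P ^ t ≤ 2 ^ n ∧ Ac K n P = 4 ^ (n + 1)) := by
    by_cases h2 : (2 : 𝓞 K) ∈ P
    · right
      refine ⟨?_, h2, q_two hn ht1, by unfold Ac; rw [if_pos h2]⟩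
      refine le_of_mem (P := P) (x := 2) ?_ ht2
      rwa [pow_one]
    · left
      refine ⟨?_, h2, by unfold Ac; rw [if_neg h2]⟩
      by_contra hc
      exact h2 (Ideal.pow_le_self hc ht1)
  have hA1 : 1 ≤ Ac K n P ^ 2 := by
    rcases hA with ⟨_, _, h⟩ | ⟨_, _, _, h⟩
    · rw [h]; norm_num
    · rw [h]; exact one_le_pow₀ (one_le_pow₀ (by norm_num))
  have hts : t + 1 ≤ s := by
    by_contra hc
    exact h2s (Ideal.pow_le_pow_right (by omega) ht1)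
  rw [Nf_pow, Nf_pow]
  set J := Nf K (Ideal.span {h} ⊔ P ^ e) with hJ
  have hJN : 0 ≤ J := zero_le_one.trans (one_le_Nf hJ0)
  -- the trivial bound
  have hT : ∀ a : ℕ, a ≤ e → h ∈ P ^ a → e + s ≤ 2 * a →
      ‖cs η θ (Ideal.Quotient.mk (P ^ e) h)‖ ^ 2 * Nf K P ^ s ≤
        Ac K n P ^ 2 * (Nf K P ^ e * J ^ 2) := by
    intro a hae hha hes
    have h1 : ‖cs η θ (Ideal.Quotient.mk (P ^ e) h)‖ ≤ Nf K P ^ e := by
      have := cs_norm_le hη.mc hθ (Ideal.Quotient.mk (P ^ e) h)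
      rwa [card_quot, Nf_pow] at this
    have h3 : Nf K P ^ a ≤ J := hNJ a hae hha
    calc ‖cs η θ (Ideal.Quotient.mk (P ^ e) h)‖ ^ 2 * Nf K P ^ s
        ≤ (Nf K P ^ e) ^ 2 * Nf K P ^ s := by gcongr
      _ = Nf K P ^ e * Nf K P ^ (e + s) := by ring
      _ ≤ Nf K P ^ e * Nf K P ^ (2 * a) := by gcongr
      _ = Nf K P ^ e * (Nf K P ^ a) ^ 2 := by ring
      _ ≤ Nf K P ^ e * J ^ 2 := by gcongr
      _ ≤ Ac K n P ^ 2 * (Nf K P ^ e * J ^ 2) :=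
          le_mul_of_one_le_left (by positivity) hA1
  by_cases hhe : h ∈ P ^ e
  · exact hT e le_rfl hhe (by omega)
  have hh0 : h ≠ 0 := by
    rintro rfl
    exact hhe (Submodule.zero_mem _)
  obtain ⟨a, ha1, ha2⟩ := ex_val hP hh0
  have hsa : s ≤ a := le_of_mem hh ha2
  have hae : a < e := by
    by_contra hc
    exact hhe (Ideal.pow_le_pow_right (by omega) ha1)
  by_cases hes : e + s ≤ 2 * a
  · exact hT a hae.le ha1 hes
  obtain ⟨i, hi⟩ : ∃ i, i = (e - a + 1) / 2 := ⟨_, rfl⟩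
  have hi1 : 1 ≤ i := by omega
  have hie : e ≤ a + (i + i) := by omega
  have key := hLS (𝓞 K ⧸ P ^ e) ((P ^ i).map (Ideal.Quotient.mk (P ^ e))) η θ
    (Ideal.Quotient.mk (P ^ e) h) hη.mc hη.prim hθ
    (by
      intro z hz
      obtain ⟨Z, hZ, rfl⟩ := lift hz
      refine ⟨e, ?_⟩
      rw [← map_pow]
      refine mk0 (k := i * e) ?_ ?_
      · rw [pow_mul]
        exact Ideal.pow_mem_pow hZ e
      · exact Nat.le_mul_of_pos_left e hi1)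
    (by
      intro z hz z' hz'
      obtain ⟨Z, hZ, rfl⟩ := lift hz
      obtain ⟨Z', hZ', rfl⟩ := lift hz'
      rw [← map_mul, ← map_mul]
      refine mk0 (k := a + (i + i)) ?_ hie
      rw [pow_add, pow_add]
      exact Ideal.mul_mem_mul ha1 (Ideal.mul_mem_mul hZ hZ'))
  rcases key with h0 | ⟨y, hy, -, hle⟩
  · rw [h0, norm_zero]
    have : (0 : ℝ) ≤ Ac K n P ^ 2 * (Nf K P ^ e * J ^ 2) := by positivity
    simpa using this
  obtain ⟨Y, rfl⟩ := Ideal.Quotient.mk_surjective y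
  have hmax : P.IsMaximal := hP.isMaximal hP0
  have hYP : Y ∉ P := (Ideal.Quotient.isUnit_mk_pow_iff_notMem P (by omega)).1 hy
  have hY : 2 * Y + h ∉ P ^ (t + 1) := by
    intro h3
    have h4 : Y * 2 ∈ P ^ (0 + (t + 1)) := by
      have := (P ^ (t + 1)).sub_mem h3 (Ideal.pow_le_pow_right (show t + 1 ≤ a by omega) ha1)
      rw [add_sub_cancel_right] at this
      rwa [zero_add, mul_comm]
    exact ht2 (canc hP hP0 (by rwa [zero_add, pow_one]) h4)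
  have hc := (hCN K P hP hP0 e i a t h Y ha1 ha2).1 hY
  have hx : ‖cs η θ (Ideal.Quotient.mk (P ^ e) h)‖ ≤ 2 * Nf K P ^ (t + i + a) := hle.trans hc
  have h3 : Nf K P ^ a ≤ J := hNJ a hae.le ha1
  have hx2 : ‖cs η θ (Ideal.Quotient.mk (P ^ e) h)‖ ^ 2 * Nf K P ^ s ≤
      (4 * Nf K P ^ (2 * t)) * Nf K P ^ (2 * i + s) * (Nf K P ^ a) ^ 2 := by
    calc ‖cs η θ (Ideal.Quotient.mk (P ^ e) h)‖ ^ 2 * Nf K P ^ s
        ≤ (2 * Nf K P ^ (t + i + a)) ^ 2 * Nf K P ^ s := by gcongr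
      _ = (4 * Nf K P ^ (2 * t)) * Nf K P ^ (2 * i + s) * (Nf K P ^ a) ^ 2 := by ring
  rcases hA with ⟨rfl, h2, hAc⟩ | ⟨ht, h2, hQt, hAc⟩
  · have hie2 : 2 * i + s ≤ e := by
      rcases hcase with h4 | h4 | h4
      · exact absurd h4 h2
      · have : s + 1 ≤ a := le_of_mem h4 ha2
        omega
      · obtain ⟨r, hr⟩ := h4
        omega
    calc ‖cs η θ (Ideal.Quotient.mk (P ^ e) h)‖ ^ 2 * Nf K P ^ s
        ≤ (4 * Nf K P ^ (2 * 0)) * Nf K P ^ (2 * i + s) * (Nf K P ^ a) ^ 2 := hx2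
      _ = 4 * (Nf K P ^ (2 * i + s) * (Nf K P ^ a) ^ 2) := by ring
      _ ≤ 4 * (Nf K P ^ e * J ^ 2) := by gcongr
      _ ≤ Ac K n P ^ 2 * (Nf K P ^ e * J ^ 2) := by
          rw [hAc]
          refine mul_le_mul_of_nonneg_right (by norm_num) (by positivity)
  · have hie2 : 2 * i + s ≤ e + 1 := by omega
    calc ‖cs η θ (Ideal.Quotient.mk (P ^ e) h)‖ ^ 2 * Nf K P ^ s
        ≤ (4 * Nf K P ^ (2 * t)) * Nf K P ^ (2 * i + s) * (Nf K P ^ a) ^ 2 := hx2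
      _ ≤ (4 * Nf K P ^ (2 * t)) * Nf K P ^ (e + 1) * J ^ 2 := by gcongr
      _ = (4 * Nf K P ^ (2 * t + 1)) * (Nf K P ^ e * J ^ 2) := by ring
      _ ≤ Ac K n P ^ 2 * (Nf K P ^ e * J ^ 2) := by
          rw [hAc]
          refine mul_le_mul_of_nonneg_right (cst hQ ht hQt) (by positivity)

end Pool.Agent.H39.FW.LE
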